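import Pool.Agent.H24.EG.Comp
import Pool.Agent.H36.RP.Targets

/-!
# The bridge between the remote past and the components (MP_c59857_nt)

On almost every ergodic component the correlations of the coordinates are those of their
conditional expectations given the remote past.
-/

set_option autoImplicit false

open MeasureTheory ProbabilityTheory Filter Topology Finset

namespace Pool.Agent.H21.WN

open Pool.Agent.H89.MT (I1 X)
open Pool.Agent.H36.RP (past past_le past_mono remote remote_le remote_le_past)
open Pool.Agent.H24.EG (IS IS_le comp)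

/-- the invariant sets belong to the remote past up to null sets -/
def InvRem (κ : Measure X) [IsProbabilityMeasure κ] : Prop :=
  ∀ A : Set X, MeasurableSet A → Pool.Agent.H36.RP.S ⁻¹' A = A →
    κ[A.indicator (fun _ => (1 : ℝ)) | remote] =ᵐ[κ] A.indicator (fun _ => (1 : ℝ))

/-- the prediction from the past is the prediction from the remote past -/
def PredRem (κ : Measure X) [IsProbabilityMeasure κ] : Prop :=
  ∀ (m : ℤ) (ψ : I1 → ℝ), Measurable ψ → (∀ a, |ψ a| ≤ 1) →
    κ[fun x => ψ (x m) | past (m - 1)] =ᵐ[κ] κ[fun x => ψ (x m) | remote]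

variable {κ : Measure X} [IsProbabilityMeasure κ]

theorem int_of_bdd {g : X → ℝ} (hg : AEStronglyMeasurable g κ) {C : ℝ} (hC : ∀ x, |g x| ≤ C) :
    Integrable g κ :=
  (integrable_const C).mono' hg (Eventually.of_forall fun x => by
    rw [Real.norm_eq_abs]
    exact hC x)

/-- conditional expectations given the invariant sets factor through the remote past -/
theorem ce_inv (hinv : InvRem κ) {g G : X → ℝ} {C : ℝ} (hg : AEStronglyMeasurable g κ)
    (hC : ∀ x, |g x| ≤ C) (hG : Integrable G κ) (h : κ[g | remote] =ᵐ[κ] G) :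
    κ[g | IS] =ᵐ[κ] κ[G | IS] := by
  have hgi := int_of_bdd hg hC
  refine ae_eq_condExp_of_forall_setIntegral_eq IS_le hG (fun s _ _ =>
    integrable_condExp.integrableOn) (fun s hs _ => ?_)
    stronglyMeasurable_condExp.aestronglyMeasurable
  rw [setIntegral_condExp IS_le hgi hs]
  have hsm : MeasurableSet s := hs.1
  set a : X → ℝ := κ[s.indicator (fun _ => (1 : ℝ)) | remote] with ha
  have h1 : a =ᵐ[κ] s.indicator (fun _ => (1 : ℝ)) := hinv s hs.1 hs.2
  have hone : ∀ x, |s.indicator (fun _ => (1 : ℝ)) x| ≤ 1 := fun x => by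
    by_cases hx : x ∈ s <;> simp [hx]
  have hagi : Integrable (a * g) κ := by
    have h2 : s.indicator (fun _ => (1 : ℝ)) * g =ᵐ[κ] a * g := by
      filter_upwards [h1] with x hx
      simp only [Pi.mul_apply, hx]
    refine Integrable.congr ?_ h2
    refine int_of_bdd (C := C) ?_ fun x => ?_
    · exact ((measurable_const.indicator hsm).aestronglyMeasurable).mul hg
    · rw [Pi.mul_apply, abs_mul]
      have h3 : 0 ≤ C := (abs_nonneg _).trans (hC x)
      calc |s.indicator (fun _ => (1 : ℝ)) x| * |g x| ≤ 1 * C :=
            mul_le_mul (hone x) (hC x) (abs_nonneg _) zero_le_one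
        _ = C := one_mul C
  have h2 : κ[a * g | remote] =ᵐ[κ] a * κ[g | remote] :=
    condExp_mul_of_stronglyMeasurable_left stronglyMeasurable_condExp hagi hgi
  calc ∫ x in s, g x ∂κ = ∫ x, a x * g x ∂κ := by
        rw [← integral_indicator hsm]
        refine integral_congr_ae ?_
        filter_upwards [h1] with x hx
        rw [hx]
        by_cases hxs : x ∈ s <;> simp [hxs]
    _ = ∫ x, (κ[a * g | remote]) x ∂κ := (integral_condExp remote_le (f := a * g)).symm
    _ = ∫ x, a x * G x ∂κ := by
        refine integral_congr_ae ?_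
        filter_upwards [h2, h] with x hx hx'
        rw [hx, Pi.mul_apply, hx']
    _ = ∫ x in s, G x ∂κ := by
        rw [← integral_indicator hsm]
        refine integral_congr_ae ?_
        filter_upwards [h1] with x hx
        rw [hx]
        by_cases hxs : x ∈ s <;> simp [hxs]

/-- **Bridge.** If `G` is the conditional expectation of `g` given the remote past, then `g` and
`G` have the same mean on almost every component -/
theorem bri (hinv : InvRem κ) {g G : X → ℝ} {C : ℝ} (hg : AEStronglyMeasurable g κ)
    (hC : ∀ x, |g x| ≤ C) (hG : Integrable G κ) (h : κ[g | remote] =ᵐ[κ] G) :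
    ∀ᵐ x ∂κ, ∫ y, g y ∂comp κ x = ∫ y, G y ∂comp κ x := by
  have h1 := condExp_ae_eq_integral_condExpKernel (μ := κ) IS_le (int_of_bdd hg hC)
  have h2 := condExp_ae_eq_integral_condExpKernel (μ := κ) IS_le hG
  filter_upwards [h1, h2, ce_inv hinv hg hC hG h] with x h1 h2 h3
  unfold comp
  rw [← h1, ← h2, h3]

omit [IsProbabilityMeasure κ] in
/-- the conditional expectation of a function bounded by one is bounded by one -/
theorem ce_abs {m : MeasurableSpace X} {g : X → ℝ} (hC : ∀ x, |g x| ≤ 1) :
    ∀ᵐ x ∂κ, |(κ[g | m]) x| ≤ 1 :=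
  ae_bdd_abs_condExp_of_ae_bdd_abs (R := (1 : ℝ)) (Eventually.of_forall hC)

/-- **Product formula** for the conditional expectations given the remote past -/
theorem prodf (h : PredRem κ) (ψ : ℤ → I1 → ℝ) (hψ : ∀ i, Measurable (ψ i))
    (hb : ∀ i a, |ψ i a| ≤ 1) (s : Finset ℤ) :
    κ[fun x => ∏ i ∈ s, ψ i (x i) | remote] =ᵐ[κ]
      fun x => ∏ i ∈ s, (κ[fun x => ψ i (x i) | remote]) x := by
  classical
  induction s using Finset.induction_on_max with
  | empty =>
    simp only [prod_empty]
    rw [condExp_const remote_le]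
  | insert m s hm ih =>
    have hms : m ∉ s := fun h' => lt_irrefl _ (hm m h')
    set g : X → ℝ := fun x => ∏ i ∈ s, ψ i (x i) with hg
    set p : X → ℝ := fun x => ψ m (x m) with hp
    have hgm : StronglyMeasurable[past (m - 1)] g := by
      refine Measurable.stronglyMeasurable ?_
      refine Finset.measurable_fun_prod _ fun i hi => ?_
      have h1 : Measurable[past (m - 1)] fun x : X => x i := by
        refine Measurable.of_comap_le ?_
        have h2 : i ≤ m - 1 := Int.le_sub_one_of_lt (hm i hi)
        exact le_iSup_of_le i (le_iSup_of_le h2 le_rfl)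
      exact (hψ i).comp h1
    have hgb : ∀ x, |g x| ≤ 1 := fun x => by
      rw [hg, Finset.abs_prod]
      exact Finset.prod_le_one (fun i _ => abs_nonneg _) fun i _ => hb i _
    have hpm : Measurable p := (hψ m).comp (measurable_pi_apply m)
    have hpb : ∀ x, |p x| ≤ 1 := fun x => hb m _
    have hgi : Integrable g κ := int_of_bdd (hgm.mono (past_le _)).aestronglyMeasurable hgb
    have hpi : Integrable p κ := int_of_bdd hpm.aestronglyMeasurable hpb
    have hgpi : Integrable (g * p) κ := by
      refine int_of_bdd (C := 1) ?_ fun x => ?_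
      · exact (hgm.mono (past_le _)).aestronglyMeasurable.mul hpm.aestronglyMeasurable
      · rw [Pi.mul_apply, abs_mul]
        exact mul_le_one₀ (hgb x) (abs_nonneg _) (hpb x)
    have e0 : (fun x : X => ∏ i ∈ insert m s, ψ i (x i)) = g * p := by
      funext x
      rw [prod_insert hms, Pi.mul_apply, mul_comm]
    rw [e0]
    -- condition on the past first
    have e1 : κ[g * p | remote] =ᵐ[κ] κ[κ[g * p | past (m - 1)] | remote] :=
      (condExp_condExp_of_le (remote_le_past _) (past_le _)).symm
    have e2 : κ[g * p | past (m - 1)] =ᵐ[κ] g * κ[p | remote] := by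
      have h1 := condExp_mul_of_stronglyMeasurable_left (μ := κ) hgm hgpi hpi
      filter_upwards [h1, h m (ψ m) (hψ m) (hb m)] with x h1 h2
      rw [h1, Pi.mul_apply, Pi.mul_apply, h2]
    have e3 : κ[κ[g * p | past (m - 1)] | remote] =ᵐ[κ] κ[g * κ[p | remote] | remote] :=
      condExp_congr_ae e2
    have hgp' : Integrable (g * κ[p | remote]) κ := integrable_condExp.congr e2
    have e4 : κ[g * κ[p | remote] | remote] =ᵐ[κ] κ[g | remote] * κ[p | remote] :=
      condExp_mul_of_stronglyMeasurable_right stronglyMeasurable_condExp hgp' hgi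
    filter_upwards [e1, e3, e4, ih] with x e1 e3 e4 ih
    rw [e1, e3, e4, prod_insert hms, Pi.mul_apply, ih, mul_comm]

/-- **On almost every component the correlations are those of the bias process** -/
theorem comp_prod (hinv : InvRem κ) (h : PredRem κ) (ψ : ℤ → I1 → ℝ)
    (hψ : ∀ i, Measurable (ψ i)) (hb : ∀ i a, |ψ i a| ≤ 1) :
    ∀ᵐ x ∂κ, ∀ s : Finset ℤ, ∫ y, ∏ i ∈ s, ψ i (y i) ∂comp κ x =
      ∫ y, ∏ i ∈ s, (κ[fun x => ψ i (x i) | remote]) y ∂comp κ x := by
  rw [ae_all_iff]
  intro s
  have hm : Measurable fun x : X => ∏ i ∈ s, ψ i (x i) :=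
    Finset.measurable_fun_prod _ fun i _ => (hψ i).comp (measurable_pi_apply i)
  have h1 := prodf h ψ hψ hb s
  refine bri hinv (C := 1) hm.aestronglyMeasurable (fun x => ?_)
    (integrable_condExp.congr h1) h1
  rw [Finset.abs_prod]
  exact Finset.prod_le_one (fun i _ => abs_nonneg _) fun i _ => hb i _

end Pool.Agent.H21.WN
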