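import Pool.Agent.H21.WN.Bri
import Pool.Agent.H24.WN.Mass

/-!
# The spectral measure of the bias process on the components (MP_c59857_nt)
-/

set_option autoImplicit false

open MeasureTheory ProbabilityTheory Filter Topology Finset

namespace Pool.Agent.H21.WN

open Pool.Agent.H89.MT (I1 X)
open Pool.Agent.H83.W (S S_cont Se Se_eq)
open Pool.Agent.H36.RP (past past_le past_mono remote remote_le remote_le_past)
open Pool.Agent.H24.EG (IS IS_le comp comp_mp S_meas)
open Pool.Agent.H24.WN (Spec W mass c0r)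

/-- the inverse of the shift -/
def Si (x : X) : X := fun t => x (t - 1)

theorem S_Si (x : X) : S (Si x) = x := by
  funext t
  show x (t + 1 - 1) = x t
  rw [add_sub_cancel_right]

theorem Si_S (x : X) : Si (S x) = x := by
  funext t
  show x (t - 1 + 1) = x t
  rw [sub_add_cancel]

theorem meas_of_shift {T : X → X} (j : ℤ) (hT : ∀ x k, T x k = x (k + j)) :
    Measurable[remote, remote] T := by
  rw [measurable_iff_comap_le]
  refine le_iInf fun q => ?_
  refine (MeasurableSpace.comap_mono (remote_le_past (q - j))).trans ?_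
  unfold past
  simp only [MeasurableSpace.comap_iSup, MeasurableSpace.comap_comp]
  refine iSup_le fun k => iSup_le fun hk => ?_
  have h1 : (fun x : X => x k) ∘ T = fun x : X => x (k + j) := by
    funext x
    exact hT x k
  rw [h1]
  exact le_iSup_of_le (k + j) (le_iSup_of_le (by omega) le_rfl)

theorem S_rem : Measurable[remote, remote] S := meas_of_shift 1 fun _ _ => rfl

theorem Si_rem : Measurable[remote, remote] Si := meas_of_shift (-1) fun _ _ => rfl

variable (κ : Measure X) [IsProbabilityMeasure κ]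

/-- the biases: the conditional expectations of the coordinates given the remote past -/
noncomputable def P (k : ℤ) : X → ℝ := κ[fun x : X => (x k : ℝ) | remote]

theorem c_int (k : ℤ) : Integrable (fun x : X => (x k : ℝ)) κ :=
  int_of_bdd (C := 1) (c0r k).aestronglyMeasurable fun x => abs_le.2 (x k).2

omit [IsProbabilityMeasure κ] in
theorem P_sm (k : ℤ) : StronglyMeasurable (P κ k) :=
  stronglyMeasurable_condExp.mono remote_le

omit [IsProbabilityMeasure κ] in
theorem P_abs (k : ℤ) : ∀ᵐ x ∂κ, |P κ k x| ≤ 1 := ce_abs fun x => abs_le.2 (x k).2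

omit [IsProbabilityMeasure κ] in
theorem P_int (k : ℤ) : Integrable (P κ k) κ := integrable_condExp

theorem PP_int (k l : ℤ) : Integrable (fun x => P κ k x * P κ l x) κ := by
  refine (integrable_const (1 : ℝ)).mono' ((P_sm κ k).mul (P_sm κ l)).aestronglyMeasurable ?_
  filter_upwards [P_abs κ k, P_abs κ l] with x h1 h2
  rw [Real.norm_eq_abs, abs_mul]
  exact mul_le_one₀ h1 (abs_nonneg _) h2

variable {κ}

/-- the biases form a stationary process -/
theorem P_succ (hS : MeasurePreserving S κ κ) (k : ℤ) : P κ k ∘ S =ᵐ[κ] P κ (k + 1) := by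
  refine ae_eq_condExp_of_forall_setIntegral_eq remote_le (c_int κ (k + 1)) (fun s _ _ => ?_)
    (fun s hs _ => ?_) ?_
  · exact ((hS.integrable_comp (P_sm κ k).aestronglyMeasurable).2 (P_int κ k)).integrableOn
  · have hs' : MeasurableSet[remote] (Si ⁻¹' s) := Si_rem hs
    have e0 : s = S ⁻¹' (Si ⁻¹' s) := by
      ext x
      show x ∈ s ↔ Si (S x) ∈ s
      rw [Si_S]
    have hem : MeasurableEmbedding S := Se_eq ▸ Se.measurableEmbedding
    have e1 : ∫ x in S ⁻¹' (Si ⁻¹' s), P κ k (S x) ∂κ = ∫ x in Si ⁻¹' s, P κ k x ∂κ :=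
      hS.setIntegral_preimage_emb hem (P κ k) (Si ⁻¹' s)
    have e2 : ∫ x in S ⁻¹' (Si ⁻¹' s), ((x (k + 1) : ℝ)) ∂κ = ∫ x in Si ⁻¹' s, (x k : ℝ) ∂κ :=
      hS.setIntegral_preimage_emb hem (fun x : X => (x k : ℝ)) (Si ⁻¹' s)
    rw [e0]
    show ∫ x in S ⁻¹' (Si ⁻¹' s), P κ k (S x) ∂κ = _
    rw [e1, e2]
    exact setIntegral_condExp remote_le (c_int κ k) hs'
  · exact StronglyMeasurable.aestronglyMeasurable
      (StronglyMeasurable.comp_measurable stronglyMeasurable_condExp S_rem)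

theorem P_iter (hS : MeasurePreserving S κ κ) (h : ℕ) : P κ 0 ∘ S^[h] =ᵐ[κ] P κ h := by
  induction h with
  | zero => exact Filter.EventuallyEq.rfl
  | succ h ih =>
    rw [Function.iterate_succ, ← Function.comp_assoc]
    refine (hS.quasiMeasurePreserving.ae_eq_comp ih).trans ?_
    have := P_succ hS (h : ℤ)
    rw [Nat.cast_succ]
    exact this

/-- functions which are equal almost everywhere have the same means on the components -/
theorem comp_congr {g g' : X → ℝ} (hg : Integrable g κ) (h : g =ᵐ[κ] g') :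
    ∀ᵐ x ∂κ, ∫ y, g y ∂comp κ x = ∫ y, g' y ∂comp κ x := by
  have h1 := condExp_ae_eq_integral_condExpKernel (μ := κ) IS_le hg
  have h2 := condExp_ae_eq_integral_condExpKernel (μ := κ) IS_le (hg.congr h)
  filter_upwards [h1, h2, condExp_congr_ae (m := IS) h] with x h1 h2 h3
  unfold comp
  rw [← h1, ← h2, h3]

/-- the mean square of the bias on a component does not depend on the time -/
theorem P_sq (hS : MeasurePreserving S κ κ) (h : ℕ) :
    ∀ᵐ x ∂κ, ∫ y, P κ h y * P κ h y ∂comp κ x = ∫ y, P κ 0 y * P κ 0 y ∂comp κ x := by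
  have h1 : (fun y => P κ h y * P κ h y) =ᵐ[κ]
      fun y => P κ 0 (S^[h] y) * P κ 0 (S^[h] y) := by
    filter_upwards [P_iter hS h] with y hy
    rw [← hy]
    rfl
  filter_upwards [comp_congr (PP_int κ h h) h1, comp_mp κ hS] with x h2 h3
  rw [h2]
  have hem : MeasurableEmbedding S := Se_eq ▸ Se.measurableEmbedding
  have h4 : ∀ n : ℕ, MeasurableEmbedding (S^[n]) := fun n => by
    induction n with
    | zero => exact MeasurableEmbedding.id
    | succ n ih =>
      rw [Function.iterate_succ]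
      exact ih.comp hem
  exact (h3.iterate h).integral_comp (h4 h) fun y => P κ 0 y * P κ 0 y

/-- **The bias process on the components.** If the spectral measure of the zeroth coordinate is
discrete plus a multiple `W κ x` of Lebesgue measure on almost every component, then the bias
process has the same correlations and its spectral measure is the same discrete measure plus a
multiple `v` of Lebesgue measure, `0 ≤ v ≤ W κ x` -/
theorem spec_bias (hS : MeasurePreserving S κ κ) (hinv : InvRem κ) (hpred : PredRem κ)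
    (hw : ∀ᵐ x ∂κ, Spec (comp κ x) (W κ x)) :
    ∀ᵐ x ∂κ, ∃ (b θ : ℕ → ℝ) (v : ℝ), (∀ j, 0 ≤ b j) ∧ Summable b ∧ 0 ≤ v ∧ v ≤ W κ x ∧
      ∫ y, (y 0 : ℝ) ^ 2 ∂comp κ x = ∑' j, b j + W κ x ∧
      ∫ y, P κ 0 y * P κ 0 y ∂comp κ x = ∑' j, b j + v ∧
      ∀ h : ℕ, 1 ≤ h → ∫ y, (y 0 : ℝ) * (y (h : ℤ) : ℝ) ∂comp κ x =
          ∑' j, b j * Real.cos (2 * Real.pi * θ j * h) ∧
        ∫ y, P κ 0 y * P κ h y ∂comp κ x = ∑' j, b j * Real.cos (2 * Real.pi * θ j * h) := by
  -- the correlations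
  have hcor : ∀ᵐ x ∂κ, ∀ h : ℕ, 1 ≤ h → ∫ y, (y 0 : ℝ) * (y (h : ℤ) : ℝ) ∂comp κ x =
      ∫ y, P κ 0 y * P κ h y ∂comp κ x := by
    have h1 := comp_prod hinv hpred (fun _ a => (a : ℝ)) (fun _ => measurable_subtype_coe)
      (fun _ a => abs_le.2 a.2)
    filter_upwards [h1] with x hx h hh
    have hne : (0 : ℤ) ≠ (h : ℤ) := by
      intro h'
      have : (h : ℤ) = 0 := h'.symm
      omega
    have h2 := hx {0, (h : ℤ)}
    simp only [Finset.prod_pair hne] at h2
    exact h2
  -- the mean square of the noise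
  have hnoise : ∀ᵐ x ∂κ, ∫ y, P κ 0 y * P κ 0 y ∂comp κ x ≤ ∫ y, (y 0 : ℝ) ^ 2 ∂comp κ x := by
    have hyb : ∀ x : X, |(x 0 : ℝ)| ≤ 1 := fun x => abs_le.2 (x 0).2
    have hPy : Integrable (P κ 0 * fun x : X => (x 0 : ℝ)) κ := by
      refine (integrable_const (1 : ℝ)).mono'
        ((P_sm κ 0).mul (c0r 0).stronglyMeasurable).aestronglyMeasurable ?_
      filter_upwards [P_abs κ 0] with x h1
      rw [Real.norm_eq_abs, Pi.mul_apply, abs_mul]
      exact mul_le_one₀ h1 (abs_nonneg _) (hyb x)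
    have hce : κ[P κ 0 * fun x : X => (x 0 : ℝ) | remote] =ᵐ[κ] fun y => P κ 0 y * P κ 0 y :=
      condExp_mul_of_stronglyMeasurable_left stronglyMeasurable_condExp hPy (c_int κ 0)
    -- the cut off bias
    set p : X → ℝ := fun x => max (-1) (min 1 (P κ 0 x)) with hp
    have hpP : P κ 0 =ᵐ[κ] p := by
      filter_upwards [P_abs κ 0] with x hx
      obtain ⟨h1, h2⟩ := abs_le.1 hx
      rw [hp]
      simp only [min_eq_right h2, max_eq_right h1]
    have hpb : ∀ x, |p x| ≤ 1 := fun x =>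
      abs_le.2 ⟨le_max_left _ _, max_le (by norm_num) (min_le_left _ _)⟩
    have hpm : Measurable p := measurable_const.max (measurable_const.min (P_sm κ 0).measurable)
    have h1 : κ[fun x => p x * (x 0 : ℝ) | remote] =ᵐ[κ] fun y => P κ 0 y * P κ 0 y := by
      refine (condExp_congr_ae ?_).trans hce
      filter_upwards [hpP] with x hx
      rw [Pi.mul_apply, hx]
    have h2 := bri hinv (g := fun x => p x * (x 0 : ℝ)) (C := 1)
      (hpm.mul (c0r 0)).aestronglyMeasurable (fun x => by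
        rw [abs_mul]
        exact mul_le_one₀ (hpb x) (abs_nonneg _) (hyb x)) (PP_int κ 0 0) h1
    have h3 := comp_congr (g := fun y => P κ 0 y * P κ 0 y) (g' := fun y => p y * p y)
      (PP_int κ 0 0) (by
        filter_upwards [hpP] with x hx
        rw [hx])
    filter_upwards [h2, h3] with x h2 h3
    have hP : IsProbabilityMeasure (comp κ x) := by unfold comp; infer_instance
    have i1 : Integrable (fun y : X => (y 0 : ℝ) ^ 2) (comp κ x) :=
      int_of_bdd (C := 1) ((c0r 0).pow_const 2).aestronglyMeasurable fun y => by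
        rw [abs_pow]
        exact pow_le_one₀ (abs_nonneg _) (hyb y)
    have i2 : Integrable (fun y : X => p y * (y 0 : ℝ)) (comp κ x) :=
      int_of_bdd (C := 1) (hpm.mul (c0r 0)).aestronglyMeasurable fun y => by
        rw [abs_mul]
        exact mul_le_one₀ (hpb y) (abs_nonneg _) (hyb y)
    have i3 : Integrable (fun y : X => p y * p y) (comp κ x) :=
      int_of_bdd (C := 1) (hpm.mul hpm).aestronglyMeasurable fun y => by
        rw [abs_mul]
        exact mul_le_one₀ (hpb y) (abs_nonneg _) (hpb y)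
    have h4 : 0 ≤ ∫ y, ((y 0 : ℝ) ^ 2 - 2 * (p y * (y 0 : ℝ)) + p y * p y) ∂comp κ x := by
      refine integral_nonneg fun y => ?_
      have : (y 0 : ℝ) ^ 2 - 2 * (p y * (y 0 : ℝ)) + p y * p y = ((y 0 : ℝ) - p y) ^ 2 := by ring
      show 0 ≤ (y 0 : ℝ) ^ 2 - 2 * (p y * (y 0 : ℝ)) + p y * p y
      rw [this]
      positivity
    have e1 : ∫ y, ((y 0 : ℝ) ^ 2 - 2 * (p y * (y 0 : ℝ)) + p y * p y) ∂comp κ x =
        ∫ y, ((y 0 : ℝ) ^ 2 - 2 * (p y * (y 0 : ℝ))) ∂comp κ x + ∫ y, p y * p y ∂comp κ x :=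
      integral_add (i1.sub (i2.const_mul 2)) i3
    have e2 : ∫ y, ((y 0 : ℝ) ^ 2 - 2 * (p y * (y 0 : ℝ))) ∂comp κ x =
        ∫ y, (y 0 : ℝ) ^ 2 ∂comp κ x - ∫ y, 2 * (p y * (y 0 : ℝ)) ∂comp κ x :=
      integral_sub i1 (i2.const_mul 2)
    rw [e1, e2, integral_const_mul, h2, ← h3] at h4
    linarith
  have hsq : ∀ᵐ x ∂κ, ∀ h : ℕ,
      ∫ y, P κ h y * P κ h y ∂comp κ x = ∫ y, P κ 0 y * P κ 0 y ∂comp κ x :=
    ae_all_iff.2 fun h => P_sq hS h
  -- integrability on the components
  have hint : ∀ᵐ x ∂κ, ∀ h : ℕ, ∀ᵐ y ∂comp κ x, |P κ h y| ≤ 1 := by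
    rw [ae_all_iff]
    intro h
    have hm : Measurable fun y => |P κ h y| := (P_sm κ h).measurable.abs
    have h0 : MeasurableSet {y | ¬ |P κ h y| ≤ 1} := (measurableSet_le hm measurable_const).compl
    have h1 := condExpKernel_ae_eq_condExp (μ := κ) IS_le h0
    have h2 : κ[({y | ¬ |P κ h y| ≤ 1}.indicator fun _ => (1 : ℝ)) | IS] =ᵐ[κ] 0 := by
      have h3 : ({y | ¬ |P κ h y| ≤ 1}.indicator fun _ => (1 : ℝ)) =ᵐ[κ] 0 := by
        filter_upwards [P_abs κ h] with y hy
        refine Set.indicator_of_notMem (fun h' => ?_) _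
        exact h' hy
      refine (condExp_congr_ae h3).trans ?_
      rw [condExp_zero]
    filter_upwards [h1, h2] with x h1 h2
    rw [h2] at h1
    have hP : IsProbabilityMeasure (comp κ x) := by unfold comp; infer_instance
    rw [ae_iff]
    exact (measureReal_eq_zero_iff).1 h1
  filter_upwards [hw, hcor, hnoise, hsq, hint] with x hw hcor hnoise hsq hint
  obtain ⟨b, θ, hb0, hb, hn, h⟩ := hw
  have hP : IsProbabilityMeasure (comp κ x) := by unfold comp; infer_instance
  refine ⟨b, θ, ∫ y, P κ 0 y * P κ 0 y ∂comp κ x - ∑' j, b j, hb0, hb, ?_, by linarith, hn,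
    by ring, fun m hm => ⟨h m hm, (hcor m hm).symm.trans (h m hm)⟩⟩
  rw [sub_nonneg]
  refine le_of_forall_pos_lt_add fun ε hε => ?_
  obtain ⟨m, hm, hlt⟩ := mass b θ hb0 hb hε
  rw [← h m hm, hcor m hm] at hlt
  have hin : ∀ k l : ℕ, Integrable (fun y => P κ k y * P κ l y) (comp κ x) := fun k l => by
    refine (integrable_const (1 : ℝ)).mono' ((P_sm κ k).mul (P_sm κ l)).aestronglyMeasurable ?_
    filter_upwards [hint k, hint l] with y h1 h2
    rw [Real.norm_eq_abs, abs_mul]
    exact mul_le_one₀ h1 (abs_nonneg _) h2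
  have h4 : ∫ y, P κ ((0 : ℕ) : ℤ) y * P κ m y ∂comp κ x ≤
      ∫ y, (1 / 2 * (P κ ((0 : ℕ) : ℤ) y * P κ ((0 : ℕ) : ℤ) y) + 1 / 2 * (P κ m y * P κ m y)) ∂comp κ x := by
    refine integral_mono (hin 0 m) (((hin 0 0).const_mul _).add ((hin m m).const_mul _))
      fun y => ?_
    show P κ ((0 : ℕ) : ℤ) y * P κ (m : ℤ) y ≤
      1 / 2 * (P κ ((0 : ℕ) : ℤ) y * P κ ((0 : ℕ) : ℤ) y) + 1 / 2 * (P κ (m : ℤ) y * P κ (m : ℤ) y)
    generalize P κ ((0 : ℕ) : ℤ) y = a
    generalize P κ (m : ℤ) y = c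
    nlinarith [sq_nonneg (a - c)]
  rw [integral_add ((hin 0 0).const_mul _) ((hin m m).const_mul _), integral_const_mul,
    integral_const_mul, hsq m] at h4
  rw [Nat.cast_zero] at h4
  linarith

end Pool.Agent.H21.WN
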