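import Pool.Agent.H87.QP.Targets
import Pool.Agent.H24.WT.Fur

/-!
# White noise (MP_c59857_nt, MP_34b97f_an): definitions

For almost every ergodic component of a Furstenberg system of a real bounded multiplicative
function the part of the zeroth coordinate orthogonal to the eigenfunctions is white noise.
-/

set_option autoImplicit false

namespace Pool.Agent.H21.WN

open MeasureTheory ProbabilityTheory Filter Topology Finset
open Pool.Agent.H89.MT (I1 X pt)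
open Pool.Agent.H83.W (S)
open Pool.Agent.H24.EG (comp)
open Pool.Agent.H24.WT (QGW)
open Pool.Agent.H6.N4D (ee)
open Pool.Agent.H87.QP (mx rh tq)

/-- real multiplicative functions, bounded by one, of absolute value near one at the primes; for
example the functions of Liouville and of Moebius -/
structure RM (f : ℕ → ℝ) : Prop where
  bd : ∀ n, |f n| ≤ 1
  mul : ∀ m n : ℕ, 0 < m → 0 < n → Nat.Coprime m n → f (m * n) = f m * f n
  sm : Summable fun p : Nat.Primes => (1 - |f (p : ℕ)|) / ((p : ℕ) : ℝ)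

/-- functions of the numbers `ρ 1, …, ρ H` with values in `[0, 1]`, Lipschitz constant one for the
maximum norm -/
def Lp1 (H : ℕ) (F : (ℕ → ℝ) → ℝ) : Prop := (∀ ρ, 0 ≤ F ρ ∧ F ρ ≤ 1) ∧
  ∀ (ρ ρ' : ℕ → ℝ) (d : ℝ), 0 ≤ d → (∀ k, 1 ≤ k → k ≤ H → |ρ k - ρ' k| ≤ d) → F ρ ≤ F ρ' + d

/-- a sum of cosines -/
noncomputable def cs (R : ℕ) (b θ : ℕ → ℝ) (k : ℕ) : ℝ :=
  ∑ j ∈ range R, b j * Real.cos (2 * Real.pi * (k * θ j))

/-- admissible weights -/
def Wt (R : ℕ) (b : ℕ → ℝ) : Prop := (∀ j, 0 ≤ b j) ∧ ∑ j ∈ range R, b j ≤ 1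

/-- the distance of `ρ 1, …, ρ H` from the sums of `R` cosines with nonnegative weights of sum at
most one, cut at one -/
noncomputable def FF (R H : ℕ) (ρ : ℕ → ℝ) : ℝ :=
  ⨅ p : {p : (ℕ → ℝ) × (ℕ → ℝ) // Wt R p.1}, min 1 (mx H (fun k => |ρ k - cs R p.1.1 p.1.2 k|))

/-- the autocorrelation of the point `y` on the window `(0, T]` -/
noncomputable def rT (T h : ℕ) (y : X) : ℝ :=
  (∑ m ∈ Ioc 0 T, (y ((m : ℕ) : ℤ) : ℝ) * (y ((m + h : ℕ) : ℤ) : ℝ)) / T

/-- the autocorrelation of the zeroth coordinate for the measure `ν` -/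
noncomputable def rv (ν : Measure X) (h : ℕ) : ℝ := ∫ y, (y 0 : ℝ) * (y ((h : ℕ) : ℤ) : ℝ) ∂ν

/-- the vector `u` is orthogonal to the eigenvectors of `U` -/
def Cont {E : Type} [NormedAddCommGroup E] [InnerProductSpace ℂ E] (U : E →L[ℂ] E) (u : E) :
    Prop := ∀ (θ : ℝ) (v : E), U v = ee θ • v → inner ℂ v u = 0

/-- a square integrable eigenfunction of the shift with eigenvalue `e(θ)` -/
def IsEig (ν : Measure X) (θ : ℝ) (F : X → ℂ) : Prop :=
  Measurable F ∧ Integrable (fun y => ‖F y‖ ^ 2) ν ∧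
    ∀ᵐ y ∂ν, F (S y) = Complex.exp (2 * Real.pi * Complex.I * θ) * F y

/-- `P` is in the closed span of the eigenfunctions in `L²(ν)` -/
def InKron (ν : Measure X) (P : X → ℂ) : Prop :=
  Measurable P ∧ Integrable (fun y => ‖P y‖ ^ 2) ν ∧ ∀ ε : ℝ, 0 < ε →
    ∃ (k : ℕ) (θ : ℕ → ℝ) (F : ℕ → X → ℂ), (∀ i, IsEig ν (θ i) (F i)) ∧
      ∫ y, ‖P y - ∑ i ∈ Finset.range k, F i y‖ ^ 2 ∂ν ≤ ε

/-- the zeroth coordinate is the sum of a function in the closed span of the eigenfunctions and of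
white noise -/
def White (ν : Measure X) : Prop := ∃ P : X → ℂ, InKron ν P ∧ ∀ h : ℕ, 1 ≤ h →
  ∫ y, (((y 0 : ℝ) : ℂ) - P y) *
    (starRingEnd ℂ) (((y ((h : ℕ) : ℤ) : ℝ) : ℂ) - P (S^[h] y)) ∂ν = 0

/-- the autocorrelations of `ν` are almost periodic -/
def AP (ν : Measure X) : Prop := ∀ ε : ℝ, 0 < ε → ∃ R : ℕ, ∀ H : ℕ, FF R H (rv ν) ≤ ε

end Pool.Agent.H21.WN
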