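import Pool.Agent.H21.WN.Defs

/-!
# White noise (MP_c59857_nt, MP_34b97f_an): statements
-/

set_option autoImplicit false

namespace Pool.Agent.H21.WN

open MeasureTheory ProbabilityTheory Filter Topology Finset
open Pool.Agent.H89.MT (I1 X pt IsMult QuasiGeneric)
open Pool.Agent.H83.W (S)
open Pool.Agent.H24.EG (comp)
open Pool.Agent.H24.WT (QGW)
open Pool.Agent.H6.N4D (ee)
open Pool.Agent.H87.QP (mx rh tq T_PEN T_GLV T_EBH)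
open Pool.Agent.H28.NW (Wn wlg)
open Pool.Agent.H93.DE (oct T_PIL)


/-! ## A. Finite part -/

/-- EBR. The levels for real functions bounded by one. -/
def T_EBR : Prop := ∀ h : ℕ, 1 ≤ h → ∃ (C : ℝ) (w₀ : ℕ), 0 < C ∧ ∀ (K : ℕ) (w : ℕ → ℕ),
  w₀ ≤ w 0 → (∀ j, j + 1 < K → 400 * w j ≤ w (j + 1)) → ∃ X₀ : ℝ, ∀ (X : Wn) (lam : ℕ → ℝ),
  X₀ ≤ X.L → (∀ n, |lam n| ≤ 1) →
  ∑ j ∈ range K, wlg X (fun n => ∑ q ∈ Pool.Agent.H93.EB.QQ (w j), 1 / (q : ℝ) *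
    tq lam q (2 ^ w j) h n ^ 2) ≤ C * X.L

/-- GLR. A good level between two bounds, real functions bounded by one. -/
def T_GLR : Prop := ∀ (H W₀ : ℕ) (ε : ℝ), 0 < ε → ∃ (W₁ : ℕ) (X₀ : ℝ), ∀ (X : Wn)
  (lam : ℕ → ℝ), X₀ ≤ X.L → (∀ n, |lam n| ≤ 1) →
  ∃ w, W₀ ≤ w ∧ w ≤ W₁ ∧ ∑ h ∈ Icc 1 H, wlg X (fun n => ∑ q ∈ Pool.Agent.H93.EB.QQ w,
    1 / (q : ℝ) * tq lam q (2 ^ w) h n ^ 2) ≤ ε * X.L

/-- SDL. Signed dilation. -/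
def T_SDL : Prop := ∀ (f : ℕ → ℝ) (q T n h : ℕ), (∀ n, |f n| ≤ 1) →
  (∀ a b : ℕ, 0 < a → 0 < b → Nat.Coprime a b → f (a * b) = f a * f b) → q.Prime → q ≤ T →
  |rh f (T / q) (n / q) h - rh f T n (q * h)| ≤
    |tq f q T h n| + 6 * q / T + 2 * (1 - |f q|) + 4 / q

/-- TQW. A long window is a mean of short windows. -/
def T_TQW : Prop := ∀ (lam : ℕ → ℝ) (q T T' h n : ℕ), (∀ n, |lam n| ≤ 1) → 1 ≤ q → q ≤ T →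
  T ≤ T' → |tq lam q T' h n| ≤ (∑ u ∈ Ioc n (n + T'), |tq lam q T h u|) / T' + 6 * T / T'

/-- TQL. The same in the logarithmic mean. -/
def T_TQL : Prop := ∀ (X : Wn) (lam : ℕ → ℝ) (q T T' h : ℕ), (∀ n, |lam n| ≤ 1) → 1 ≤ q →
  q ≤ T → T ≤ T' → wlg X (fun n => |tq lam q T' h n|) ≤
    wlg X (fun n => |tq lam q T h n|) + 30 * (1 + Real.log T') + 6 * T / T' * (1 + X.L)

/-- FIN. Dilation by the primes of a good level does not increase the mean of a Lipschitz function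
of the autocorrelations. -/
def T_FIN : Prop := ∀ f : ℕ → ℝ, RM f → ∀ (H W₀ : ℕ) (ε : ℝ), 0 < ε →
  ∃ (W₁ T₁ : ℕ) (X₀ : ℝ) (Y : ℕ → ℝ), ∀ X : Wn, X₀ ≤ X.L → ∃ w, W₀ ≤ w ∧ w ≤ W₁ ∧
  ∀ T : ℕ, T₁ ≤ T → Y T ≤ X.L → ∀ F : (ℕ → ℝ) → ℝ, Lp1 H F →
  ∑ q ∈ Pool.Agent.H93.EB.QQ w, 1 / (q : ℝ) *
      (wlg X (fun n => F (fun k => rh f (T / q) n k)) -
        wlg X (fun n => F (fun k => rh f T n (q * k)))) ≤
    ε * (∑ q ∈ Pool.Agent.H93.EB.QQ w, 1 / (q : ℝ)) * X.L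

/-! ## B. Passage to the measure -/

/-- LIM. The inequality for the measure, windows of length `T`. -/
def T_LIM : Prop := ∀ (u : ℕ → I1) (κ : Measure X) [IsProbabilityMeasure κ], QGW u κ →
  RM (fun n => (u n : ℝ)) → ∀ (H W₀ : ℕ) (ε : ℝ), 0 < ε → ∃ w T₁ : ℕ, W₀ ≤ w ∧
  ∀ T : ℕ, T₁ ≤ T → ∀ F : (ℕ → ℝ) → ℝ, Lp1 H F →
  ∑ q ∈ Pool.Agent.H93.EB.QQ w, 1 / (q : ℝ) *
      (∫ y, F (fun k => rT (T / q) k y) ∂κ - ∫ y, F (fun k => rT T (q * k) y) ∂κ) ≤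
    ε * ∑ q ∈ Pool.Agent.H93.EB.QQ w, 1 / (q : ℝ)

/-- MEC. The mean ergodic theorem for the autocorrelations. -/
def T_MEC : Prop := ∀ (κ : Measure X) [IsProbabilityMeasure κ], MeasurePreserving S κ κ →
  ∀ h : ℕ, Measurable (fun x => rv (comp κ x) h) ∧
    Tendsto (fun T : ℕ => ∫ y, |rT T h y - rv (comp κ y) h| ∂κ) atTop (𝓝 0)

/-- ERI. The inequality for the components. -/
def T_ERI : Prop := ∀ (u : ℕ → I1) (κ : Measure X) [IsProbabilityMeasure κ], QGW u κ →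
  RM (fun n => (u n : ℝ)) → ∀ (H W₀ : ℕ) (ε : ℝ), 0 < ε → ∀ F : (ℕ → ℝ) → ℝ, Lp1 H F →
  ∃ w : ℕ, W₀ ≤ w ∧ ∑ q ∈ Pool.Agent.H93.EB.QQ w, 1 / (q : ℝ) *
      (∫ x, F (fun k => rv (comp κ x) k) ∂κ - ∫ x, F (fun k => rv (comp κ x) (q * k)) ∂κ) ≤
    ε * ∑ q ∈ Pool.Agent.H93.EB.QQ w, 1 / (q : ℝ)

/-- ERO. The same for one octave. -/
def T_ERO : Prop := ∀ (u : ℕ → I1) (κ : Measure X) [IsProbabilityMeasure κ], QGW u κ →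
  RM (fun n => (u n : ℝ)) → ∀ (H m₀ : ℕ) (ε : ℝ), 0 < ε → ∀ F : (ℕ → ℝ) → ℝ, Lp1 H F →
  ∃ m : ℕ, m₀ ≤ m ∧ ∑ q ∈ oct m, 1 / (q : ℝ) *
      (∫ x, F (fun k => rv (comp κ x) k) ∂κ - ∫ x, F (fun k => rv (comp κ x) (q * k)) ∂κ) ≤
    ε * ∑ q ∈ oct m, 1 / (q : ℝ)

/-! ## C. One isometry of a Hilbert space -/

/-- UME. The uniform mean ergodic theorem. -/
def T_UME : Prop := ∀ (E : Type) [NormedAddCommGroup E] [InnerProductSpace ℂ E]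
  [CompleteSpace E] (U : E →L[ℂ] E) (u : E), (∀ v, ‖U v‖ = ‖v‖) → Cont U u →
  ∀ ε : ℝ, 0 < ε → ∃ M₀ : ℕ, ∀ M : ℕ, M₀ ≤ M → ∀ θ : ℝ,
    ‖(1 / (M : ℂ)) • ∑ s ∈ range M, ee (-(s * θ)) • (U ^ s) u‖ ≤ ε

/-- PRU. Along the primes of an octave. -/
def T_PRU : Prop := ∀ (E : Type) [NormedAddCommGroup E] [InnerProductSpace ℂ E]
  [CompleteSpace E] (U : E →L[ℂ] E) (u : E), (∀ v, ‖U v‖ = ‖v‖) → Cont U u →
  ∀ k : ℕ, 1 ≤ k → ∀ ε : ℝ, 0 < ε → ∃ m₀ : ℕ, ∀ m : ℕ, m₀ ≤ m →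
    ∑ q ∈ oct m, ‖inner ℂ u ((U ^ (q * k)) u)‖ ≤ ε * (oct m).card

/-- MSQ. The mean square. -/
def T_MSQ : Prop := ∀ (E : Type) [NormedAddCommGroup E] [InnerProductSpace ℂ E]
  [CompleteSpace E] (U : E →L[ℂ] E) (u : E), (∀ v, ‖U v‖ = ‖v‖) → Cont U u →
  Tendsto (fun M : ℕ => (∑ k ∈ range M, ‖inner ℂ u ((U ^ k) u)‖ ^ 2) / (M : ℝ)) atTop (𝓝 0)

/-- KRD. The decomposition of a vector. -/
def T_KRD : Prop := ∀ (E : Type) [NormedAddCommGroup E] [InnerProductSpace ℂ E]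
  [CompleteSpace E] (U : E →L[ℂ] E) (v : E), (∀ x, ‖U x‖ = ‖x‖) → ‖v‖ ≤ 1 →
  ∃ P : E, Cont U (v - P) ∧
    P ∈ (Submodule.span ℂ {x : E | ∃ θ : ℝ, U x = ee θ • x}).topologicalClosure ∧
    ∀ ε : ℝ, 0 < ε → ∃ (R : ℕ) (b θ : ℕ → ℝ), Wt R b ∧ ∀ k : ℕ,
      ‖inner ℂ v ((U ^ k) v) - ∑ j ∈ range R, (b j : ℂ) * ee (k * θ j) -
        inner ℂ (v - P) ((U ^ k) (v - P))‖ ≤ ε

/-- RET. Return times have positive density. -/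
def T_RET : Prop := ∀ (R Q : ℕ), 1 ≤ Q → ∃ (c : ℝ) (M₀ : ℕ), 0 < c ∧
  ∀ (M : ℕ) (θ : ℕ → ℝ), M₀ ≤ M →
    c * M ≤ (((Icc 1 M).filter (fun t : ℕ => ∀ j ∈ range R,
      ‖ee (t * θ j) - 1‖ ≤ 1 / (Q : ℝ))).card : ℝ)

/-- ZER. An almost periodic sequence of correlations of a vector without eigenvectors vanishes. -/
def T_ZER : Prop := ∀ (E : Type) [NormedAddCommGroup E] [InnerProductSpace ℂ E]
  [CompleteSpace E] (U : E →L[ℂ] E) (u : E), (∀ v, ‖U v‖ = ‖v‖) → Cont U u →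
  (∀ η : ℝ, 0 < η → ∃ (R : ℕ) (B : ℝ), ∀ H : ℕ, ∃ (β : ℕ → ℂ) (θ : ℕ → ℝ),
    ∑ j ∈ range R, ‖β j‖ ≤ B ∧ ∀ k : ℕ, 1 ≤ k → k ≤ H →
      ‖inner ℂ u ((U ^ k) u) - ∑ j ∈ range R, β j * ee (k * θ j)‖ ≤ η) →
  ∀ k : ℕ, 1 ≤ k → inner ℂ u ((U ^ k) u) = 0

/-! ## D. The distance from the sums of cosines -/

/-- FFL. It is a Lipschitz function. -/
def T_FFL : Prop := ∀ R H : ℕ, Lp1 H (FF R H)

/-- FFM. Monotonicity, upper bound, almost minimisers. -/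
def T_FFM : Prop :=
  (∀ (R R' H : ℕ) (ρ : ℕ → ℝ), R ≤ R' → FF R' H ρ ≤ FF R H ρ) ∧
  (∀ (R H H' : ℕ) (ρ : ℕ → ℝ), H ≤ H' → FF R H ρ ≤ FF R H' ρ) ∧
  (∀ (R H : ℕ) (ρ : ℕ → ℝ) (b θ : ℕ → ℝ) (d : ℝ), 0 ≤ d → Wt R b →
    (∀ k, 1 ≤ k → k ≤ H → |ρ k - cs R b θ k| ≤ d) → FF R H ρ ≤ d) ∧
  (∀ (R H : ℕ) (ρ : ℕ → ℝ) (d : ℝ), FF R H ρ < d → d ≤ 1 →
    ∃ b θ : ℕ → ℝ, Wt R b ∧ ∀ k, 1 ≤ k → k ≤ H → |ρ k - cs R b θ k| ≤ d)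

/-- ONE. For one invariant measure the dilates by most primes of an octave are near to sums of
few cosines. -/
def T_ONE : Prop := ∀ (ν : Measure X) [IsProbabilityMeasure ν], MeasurePreserving S ν ν →
  ∀ ε : ℝ, 0 < ε → ∃ R : ℕ, ∀ H : ℕ, ∃ m₀ : ℕ, ∀ m : ℕ, m₀ ≤ m →
    ∑ q ∈ oct m, 1 / (q : ℝ) * FF R H (fun k => rv ν (q * k)) ≤
      ε * ∑ q ∈ oct m, 1 / (q : ℝ)

/-! ## E. The theorem -/

/-- MAI. The autocorrelations of almost every component are almost periodic. -/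
def T_MAI : Prop := ∀ (u : ℕ → I1) (κ : Measure X) [IsProbabilityMeasure κ], QGW u κ →
  RM (fun n => (u n : ℝ)) → ∀ᵐ x ∂κ, AP (comp κ x)

/-- WHI. From almost periodic autocorrelations to white noise. -/
def T_WHI : Prop := ∀ (ν : Measure X) [IsProbabilityMeasure ν], MeasurePreserving S ν ν →
  AP ν → White ν

/-- WNT. The theorem. -/
def T_WNT : Prop := ∀ (u : ℕ → I1) (κ : Measure X) [IsProbabilityMeasure κ], QGW u κ →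
  RM (fun n => (u n : ℝ)) → ∀ᵐ x ∂κ, White (comp κ x) ∧ AP (comp κ x)

/-- TRI. The other real multiplicative functions: the coordinate vanishes. -/
def T_TRI : Prop := ∀ (u : ℕ → I1) (κ : Measure X) [IsProbabilityMeasure κ], IsMult u →
  QuasiGeneric u κ →
  ¬ Summable (fun p : Nat.Primes => (1 - |(u (p : ℕ) : ℝ)|) / ((p : ℕ) : ℝ)) →
  ∀ᵐ x ∂κ, ∀ n : ℤ, (x n : ℝ) = 0

/-- QGC. Quasi-generic measures are quasi-generic along windows. -/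
def T_QGC : Prop := ∀ (u : ℕ → I1) (κ : Measure X), IsProbabilityMeasure κ →
  QuasiGeneric u κ → QGW u κ

end Pool.Agent.H21.WN
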